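import Mathlib

/-!
# Project KI (MP_2e3c73_gt): the invariant `p (Z^n)`, statements of the packages
-/

set_option autoImplicit false

namespace Pool.Agent.P8H3.KI

open Filter Topology

/-- A class of closed connected oriented 4-manifolds, with Euler characteristic, signature and
fundamental group, which contains `S⁴` and is closed under connected sums and surgery on loops; the
last condition is `b₂ ≥ σ` for the manifolds with free abelian fundamental group. -/
structure Manifolds where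
  Obj : Type
  chi : Obj → ℤ
  sig : Obj → ℤ
  grp : Obj → Type
  inst : ∀ M, Group (grp M)
  sphere : ∃ M, chi M = 2 ∧ sig M = 0 ∧ Subsingleton (grp M)
  circle : ∃ M, chi M = 0 ∧ sig M = 0 ∧ Nonempty (grp M ≃* Multiplicative ℤ)
  sum : ∀ M N, ∃ L, chi L = chi M + chi N - 2 ∧ sig L = sig M + sig N ∧
    Nonempty (grp L ≃* Monoid.Coprod (grp M) (grp N))
  surgery : ∀ M (g : grp M), ∃ L, chi L = chi M + 2 ∧ sig L = sig M ∧
    Nonempty (grp L ≃* grp M ⧸ Subgroup.normalClosure {g})
  bound : ∀ M (n : ℕ), Nonempty (grp M ≃* Multiplicative (Fin n → ℤ)) →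
    2 - 2 * (n : ℤ) ≤ chi M - sig M

attribute [instance] Manifolds.inst

/-- Package SUMI: connected sums of finite families (`S⁴` for the empty family). The group is described
by the universal property of the free product. Induction over a finset / `Fin m`. -/
def S_SUMI : Prop := ∀ (T : Manifolds) (ι : Type) [Fintype ι] (M : ι → T.Obj),
  ∃ (L : T.Obj) (φ : ∀ i, T.grp (M i) →* T.grp L),
    T.chi L - 2 = ∑ i, (T.chi (M i) - 2) ∧ T.sig L = ∑ i, T.sig (M i) ∧
    (⨆ i, (φ i).range) = ⊤ ∧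
    ∀ (H : Type) [Group H] (ψ : ∀ i, T.grp (M i) →* H),
      ∃ Ψ : T.grp L →* H, ∀ i, Ψ.comp (φ i) = ψ i

/-- Package SURG: surgery on finitely many loops. Induction on `m`. -/
def S_SURG : Prop := ∀ (T : Manifolds) (M : T.Obj) (m : ℕ) (r : Fin m → T.grp M),
  ∃ (L : T.Obj) (π : T.grp M →* T.grp L), Function.Surjective π ∧
    π.ker = Subgroup.normalClosure (Set.range r) ∧
    T.chi L = T.chi M + 2 * m ∧ T.sig L = T.sig M

/-- Package GLUE (from SUMI and SURG): manifolds `M i` with fundamental group `Z ^ (B i)`, where the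
blocks `B i ⊆ P` cover all pairs of points (also `x = y`), can be combined to a manifold with
fundamental group `Z ^ P`. Proof: take the connected sum `L₀` of the `M i`; choose for every point `x`
a block `b x ∋ x`, and do surgery on the loops `e_x^(i) (e_x^(b x))⁻¹` for all `i` and `x ∈ B i` with
`i ≠ b x`; there are `∑ |B i| - |P|` of them. In the resulting group `Γ` the class of `e_x^(i)` does not
depend on `i`, call it `e x`. The `e x` generate `Γ`, and commute because any two points are in a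
common block. So every element of `Γ` is `∏ e x ^ a x`. The homomorphism `Γ → Z ^ P` given by the
universal property (it kills the relators) sends `∏ e x ^ a x` to `a`, so it is bijective. -/
def S_GLUE : Prop := ∀ (T : Manifolds) (P ι : Type) [Fintype P] [DecidableEq P] [Fintype ι]
  (B : ι → Finset P) (M : ι → T.Obj),
  (∀ i, Nonempty (T.grp (M i) ≃* Multiplicative (B i → ℤ))) →
  (∀ x y, ∃ i, x ∈ B i ∧ y ∈ B i) →
  ∃ L : T.Obj, Nonempty (T.grp L ≃* Multiplicative (P → ℤ)) ∧
    T.chi L - 2 + 2 * (Fintype.card P : ℤ) = ∑ i, (T.chi (M i) - 2 + 2 * ((B i).card : ℤ)) ∧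
    T.sig L = ∑ i, T.sig (M i)

/-- Package KILL: one surgery reduces the rank by one. -/
def S_KILL : Prop := ∀ (T : Manifolds) (M : T.Obj) (n : ℕ),
  Nonempty (T.grp M ≃* Multiplicative (Fin (n + 1) → ℤ)) →
  ∃ L : T.Obj, Nonempty (T.grp L ≃* Multiplicative (Fin n → ℤ)) ∧
    T.chi L = T.chi M + 2 ∧ T.sig L = T.sig M

/-- Package TD: transversal designs: `k` groups of `q` points, `q ^ 2` blocks
`{(i, a + i b) : i < k}` with `a`, `b` modulo `q`, and the `k` groups; all pairs are covered, since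
`i - i'` is invertible modulo `q` for `i ≠ i' < k`. -/
def S_TD : Prop := ∀ (k q : ℕ) [NeZero q], 2 ≤ k → q.Coprime (k - 1).factorial →
  ∃ B : (ZMod q × ZMod q) ⊕ Fin k → Finset (Fin k × ZMod q),
    (∀ ab, (B (Sum.inl ab)).card = k) ∧ (∀ i, (B (Sum.inr i)).card = q) ∧
    ∀ x y, ∃ i, x ∈ B i ∧ y ∈ B i

/-- Package LIM: the limit. Proof: let `L = limsup f n / n ^ 2`, finite by `quad`. Fix `k ≥ 2`. For large
`n` let `q` be the least number `≥ n / k` with `q ≡ 1` modulo `(k - 1)!`, so `q ≤ n / k + 1 + (k - 1)!`.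
Then `f n ≤ f (k q) ≤ q ^ 2 f k + k f q`. Divide by `n ^ 2`: `L ≤ f k / k ^ 2 + L / k`, that is
`L ≤ f k / (k (k - 1))`. So `L ≤ c`, and `f n / n ^ 2 ≥ c (1 - 1 / n)`. -/
def S_LIM : Prop := ∀ f : ℕ → ℝ, (∀ n, 0 ≤ f n) → Monotone f →
  (∃ C : ℝ, ∀ n, f n ≤ C * (n : ℝ) ^ 2) →
  (∀ k q : ℕ, 2 ≤ k → 1 ≤ q → q.Coprime (k - 1).factorial →
    f (k * q) ≤ (q : ℝ) ^ 2 * f k + k * f q) →
  ∃ c : ℝ, 0 ≤ c ∧ Tendsto (fun n : ℕ => f n / (n : ℝ) ^ 2) atTop (𝓝 c) ∧
    IsGLB {x : ℝ | ∃ k : ℕ, 2 ≤ k ∧ x = f k / (k * (k - 1))} c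

/-- Package BU2: a Borsuk-Ulam theorem on the product of two spheres, for functions which are odd in
each variable (so that the relevant class is `(a + b) ^ (p + q)` in `Z/2[a,b]/(a^(p+1), b^(q+1))`).
Proof: use `Pool.Agent.Helper133.BUProd` (chains `cc n r 2` on the product of two cross polytopes,
`n 0 = p`, `n 1 = q`). For sign functions `s` with `s (flp n 0 v) = s v + 1 = s (flp n 1 v)` replace all
of them (`Wfc_replace_all`, `bd_cc`) by the reference function `sg (v 0) + sg (v 1)`. `Wf` is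
multilinear in the differences, so the value is the sum over the words in the two letters
`sg (v 0)`, `sg (v 1)`, and by the shape of the shuffle product a word with `j` letters `sg (v 0)`
has the value `1` if `j = p` and `0` else: together `(p + q).choose p = 1` modulo two. The end is as
in the proof of `BT.triangular`. -/
def S_BU2 : Prop := ∀ (p q : ℕ), 1 ≤ p → 1 ≤ q → Odd ((p + q).choose p) →
  ∀ f : Fin (p + q) → (Fin (p + 1) → ℝ) → (Fin (q + 1) → ℝ) → ℝ,
    (∀ i, Continuous fun z : (Fin (p + 1) → ℝ) × (Fin (q + 1) → ℝ) => f i z.1 z.2) →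
    (∀ i x y, f i (-x) y = - f i x y) → (∀ i x y, f i x (-y) = - f i x y) →
    ∃ x y, x ≠ 0 ∧ y ≠ 0 ∧ ∀ i, f i x y = 0

/-- Package SKEW (from BU2): common zeros of skew forms. For `s = 0` trivial. For `s ≥ 1` restrict to a
subspace of dimension `2 ^ s + 1`; `p = 2 ^ s - 1`, `q = 2 ^ s`; the functions are the forms at
`((x, 0, 0), y)`, and the dot product of `(x, 0, 0)` and `y` (pad with zero functions).
`(2 ^ (s + 1) - 1).choose j` is odd by `Nat.Prime.dvd_choose_pow` and Pascal's rule. -/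
def S_SKEW : Prop := ∀ (V : Type) [AddCommGroup V] [Module ℝ V] [FiniteDimensional ℝ V] (s : ℕ),
  2 ^ s < Module.finrank ℝ V → ∀ (m : ℕ) (β : Fin m → (V →ₗ[ℝ] V →ₗ[ℝ] ℝ)),
    m + 2 ≤ 2 ^ (s + 1) → (∀ i x, β i x x = 0) →
    ∃ x y, LinearIndependent ℝ ![x, y] ∧ ∀ i, β i x y = 0

/-- The Pluecker quadratic polynomial of four indices. -/
def plu (a : ℕ → ℕ → ℝ) (i k l j : ℕ) : ℝ := a i k * a l j - a i l * a k j + a i j * a k l

/-- Package POS: positivity. Proof: let `w s = B ^ (s ^ 2)`. If `∑ a i j = 0` over `i + j = s` then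
`- 2 ∑ a i j a k l` over `i < k < l < j`, `i + j = k + l = s`, is `∑ (a i j) ^ 2` over `i < j`, `i + j = s`.
The other terms: with `e = l - i = j - k`,
`2 w s |a i k a l j| ≤ B⁻¹ (w (s - e) (a i k) ^ 2 + w (s + e) (a l j) ^ 2)` since
`(s - e) ^ 2 + (s + e) ^ 2 = 2 s ^ 2 + 2 e ^ 2`, and in the same way for `a i l a k j` with
`d = k - i = j - l`. A pair of indices occurs in at most `n` quadruples in each of the four roles, so
`Q ≥ (1 - 4 n / B) ∑ w (i + j) (a i j) ^ 2`. -/
def S_POS : Prop := ∀ (n : ℕ) (a : ℕ → ℕ → ℝ),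
  (∀ s : ℕ, ∑ i ∈ Finset.range n, ∑ j ∈ Finset.range n,
    (if i < j ∧ i + j = s then a i j else 0) = 0) →
  (∃ i j, i < j ∧ j < n ∧ a i j ≠ 0) →
  0 < - ∑ i ∈ Finset.range n, ∑ k ∈ Finset.range n, ∑ l ∈ Finset.range n, ∑ j ∈ Finset.range n,
    (if i < k ∧ k < l ∧ l < j ∧ i + j = k + l then
      ((4 * n + 1 : ℕ) : ℝ) ^ ((i + j) ^ 2) * plu a i k l j else 0)

end Pool.Agent.P8H3.KI
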