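import Pool.Agent.P8H3.KI.Stm2

/-!
# The invariant `p (Z ^ n)`
-/

set_option autoImplicit false

namespace Pool.Agent.P8H3.KI

/-- `p (Z ^ n)`: the least value of `χ - σ` for the manifolds with fundamental group `Z ^ n` -/
noncomputable def pInv (T : Manifolds) (n : ℕ) : ℤ :=
  sInf {z : ℤ | ∃ M : T.Obj, Nonempty (T.grp M ≃* Multiplicative (Fin n → ℤ)) ∧
    z = T.chi M - T.sig M}

end Pool.Agent.P8H3.KI
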