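import Mathlib

/-!
# Cup products on the first cohomology of a 4-manifold
-/

set_option autoImplicit false

namespace Pool.Agent.P8H3.KI

/-- The part of the real cohomology ring of a closed oriented 4-manifold which we use: `V` is the first
and `H` the second cohomology group, `cup` the cup product `V × V → H`, `form` the intersection form
`H × H → ℝ`; `sq` says that `x ∪ y ∪ x ∪ y = 0`. -/
structure CupForm (V H : Type) [AddCommGroup V] [Module ℝ V] [AddCommGroup H] [Module ℝ H] where
  cup : V →ₗ[ℝ] V →ₗ[ℝ] H
  form : H →ₗ[ℝ] H →ₗ[ℝ] ℝ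
  symm : ∀ a b, form a b = form b a
  alt : ∀ x, cup x x = 0
  sq : ∀ x y, form (cup x y) (cup x y) = 0

/-- `H` is the direct sum of the subspaces `P` and `N`, the intersection form is positive definite on
`P` and negative definite on `N`. So it is nondegenerate, `b⁺ = dim P` and `b⁻ = dim N`. -/
structure Split {V H : Type} [AddCommGroup V] [Module ℝ V] [AddCommGroup H] [Module ℝ H]
    (C : CupForm V H) (P N : Submodule ℝ H) : Prop where
  pos : ∀ a ∈ P, a ≠ 0 → 0 < C.form a a
  neg : ∀ a ∈ N, a ≠ 0 → C.form a a < 0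
  compl : IsCompl P N

/-- The Euler characteristic `2 - 2 b₁ + b₂`. -/
noncomputable def euler (V H : Type) [AddCommGroup V] [Module ℝ V] [AddCommGroup H]
    [Module ℝ H] : ℤ :=
  2 - 2 * (Module.finrank ℝ V : ℤ) + Module.finrank ℝ H

/-- The signature `b⁺ - b⁻`. -/
noncomputable def signature {H : Type} [AddCommGroup H] [Module ℝ H] (P N : Submodule ℝ H) : ℤ :=
  (Module.finrank ℝ P : ℤ) - Module.finrank ℝ N

/-- The pairs of indices `i < j`. -/
abbrev Pairs (n : ℕ) : Type := {z : Fin n × Fin n // z.1 < z.2}

end Pool.Agent.P8H3.KI
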