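import Mathlib

/-!
Project KI: a group generated by finitely many commuting elements which are mapped to the standard
basis of a free abelian group is free abelian.
-/

set_option autoImplicit false

namespace Pool.Agent.P8H3.KI

open Subgroup

theorem fab {P Γ : Type} [Fintype P] [DecidableEq P] [Group Γ] (e : P → Γ)
    (hc : ∀ x y, e x * e y = e y * e x) (hg : Subgroup.closure (Set.range e) = ⊤)
    (Ψ : Γ →* Multiplicative (P → ℤ))
    (hΨ : ∀ x, Ψ (e x) = Multiplicative.ofAdd (Pi.single x 1)) :
    Nonempty (Γ ≃* Multiplicative (P → ℤ)) := by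
  classical
  have hcomm : ∀ a b : Γ, a * b = b * a := by
    have h1 : ∀ a ∈ Subgroup.closure (Set.range e), ∀ b ∈ Subgroup.closure (Set.range e),
        a * b = b * a := by
      intro a ha b hb
      have := Subgroup.closure_le_centralizer_centralizer (Set.range e) ha
      rw [Subgroup.mem_centralizer_iff] at this
      refine (this b ?_).symm
      have h2 : Subgroup.closure (Set.range e) ≤ Subgroup.centralizer (Set.range e) := by
        rw [Subgroup.closure_le]
        rintro _ ⟨x, rfl⟩
        rw [SetLike.mem_coe, Subgroup.mem_centralizer_iff]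
        rintro _ ⟨y, rfl⟩
        exact hc y x
      exact h2 hb
    intro a b
    exact h1 a (hg ▸ Subgroup.mem_top a) b (hg ▸ Subgroup.mem_top b)
  let _ : CommGroup Γ := { (inferInstance : Group Γ) with mul_comm := hcomm }
  -- every element is a product of powers
  have hprod : ∀ g : Γ, ∃ a : P → ℤ, g = ∏ x, e x ^ a x := by
    intro g
    have hgm : g ∈ Subgroup.closure (Set.range e) := hg ▸ Subgroup.mem_top g
    induction hgm using Subgroup.closure_induction with
    | mem g h =>
      obtain ⟨x, rfl⟩ := h
      refine ⟨Pi.single x 1, ?_⟩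
      rw [Finset.prod_eq_single x]
      · simp
      · intro y _ hy
        simp [Pi.single_eq_of_ne hy]
      · intro h
        exact absurd (Finset.mem_univ x) h
    | one => exact ⟨0, by simp⟩
    | mul g h _ _ ih1 ih2 =>
      obtain ⟨a, ha⟩ := ih1
      obtain ⟨b, hb⟩ := ih2
      refine ⟨a + b, ?_⟩
      rw [ha, hb, ← Finset.prod_mul_distrib]
      refine Finset.prod_congr rfl fun x _ => ?_
      rw [Pi.add_apply, zpow_add]
    | inv g _ ih =>
      obtain ⟨a, ha⟩ := ih
      refine ⟨-a, ?_⟩
      rw [ha, ← Finset.prod_inv_distrib]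
      refine Finset.prod_congr rfl fun x _ => ?_
      rw [Pi.neg_apply, zpow_neg]
  have hval : ∀ a : P → ℤ, Ψ (∏ x, e x ^ a x) = Multiplicative.ofAdd a := by
    intro a
    rw [map_prod]
    have : ∀ x ∈ (Finset.univ : Finset P), Ψ (e x ^ a x) = Multiplicative.ofAdd (Pi.single x (a x)) := by
      intro x _
      rw [map_zpow, hΨ, ← ofAdd_zsmul]
      congr 1
      rw [← Pi.single_smul]
      simp
    rw [Finset.prod_congr rfl this, ← ofAdd_sum]
    congr 1
    exact Finset.univ_sum_single a
  have hinj : Function.Injective Ψ := by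
    rw [injective_iff_map_eq_one]
    intro g hg1
    obtain ⟨a, rfl⟩ := hprod g
    rw [hval] at hg1
    have : a = 0 := by
      have := congrArg Multiplicative.toAdd hg1
      simpa using this
    rw [this]
    simp
  have hsurj : Function.Surjective Ψ := by
    intro b
    exact ⟨∏ x, e x ^ (Multiplicative.toAdd b) x, hval _⟩
  exact ⟨MulEquiv.ofBijective Ψ ⟨hinj, hsurj⟩⟩

end Pool.Agent.P8H3.KI
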