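import Pool.Agent.P8H3.KI.DefsA

/-!
# Project KI: the limit of `p (Z ^ n) / n ^ 2`
-/

set_option autoImplicit false

namespace Pool.Agent.P8H3.KI

open Filter Topology

theorem pset_bdd (T : Manifolds) (n : ℕ) : BddBelow {z : ℤ | ∃ M : T.Obj,
    Nonempty (T.grp M ≃* Multiplicative (Fin n → ℤ)) ∧ z = T.chi M - T.sig M} := by
  refine ⟨2 - 2 * (n : ℤ), ?_⟩
  rintro z ⟨M, hM, rfl⟩
  exact T.bound M n hM

theorem pInv_le {T : Manifolds} {n : ℕ} {M : T.Obj}
    (hM : Nonempty (T.grp M ≃* Multiplicative (Fin n → ℤ))) :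
    pInv T n ≤ T.chi M - T.sig M :=
  csInf_le (pset_bdd T n) ⟨M, hM, rfl⟩

theorem pInv_mem (hE : S_EXI) (T : Manifolds) (n : ℕ) : ∃ M : T.Obj,
    Nonempty (T.grp M ≃* Multiplicative (Fin n → ℤ)) ∧ pInv T n = T.chi M - T.sig M := by
  obtain ⟨M, hM, -, -⟩ := hE T n
  have := Int.csInf_mem (⟨_, M, hM, rfl⟩ : Set.Nonempty {z : ℤ | ∃ M : T.Obj,
    Nonempty (T.grp M ≃* Multiplicative (Fin n → ℤ)) ∧ z = T.chi M - T.sig M}) (pset_bdd T n)
  exact this

/-- the cost `p (Z ^ n) - 2 + 2 n` -/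
noncomputable def cost (T : Manifolds) (n : ℕ) : ℝ := (pInv T n : ℝ) - 2 + 2 * n

theorem cost_nonneg (hE : S_EXI) (T : Manifolds) (n : ℕ) : 0 ≤ cost T n := by
  obtain ⟨M, hM, h⟩ := pInv_mem hE T n
  have h1 := T.bound M n hM
  rw [← h] at h1
  have h2 : (2 : ℝ) - 2 * n ≤ pInv T n := by exact_mod_cast h1
  unfold cost
  linarith

theorem cost_mono (hE : S_EXI) (hK : S_KILL) (T : Manifolds) : Monotone (cost T) := by
  refine monotone_nat_of_le_succ fun n => ?_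
  obtain ⟨M, hM, h⟩ := pInv_mem hE T (n + 1)
  obtain ⟨L, hL, h1, h2⟩ := hK T M n hM
  have h3 := pInv_le hL
  rw [h1, h2] at h3
  have h4 : pInv T n ≤ pInv T (n + 1) + 2 := by omega
  have h5 : (pInv T n : ℝ) ≤ pInv T (n + 1) + 2 := by exact_mod_cast h4
  unfold cost
  push_cast
  linarith

theorem cost_quad (hE : S_EXI) (T : Manifolds) : ∃ C : ℝ, ∀ n, cost T n ≤ C * (n : ℝ) ^ 2 := by
  refine ⟨2, fun n => ?_⟩
  obtain ⟨M, hM, h1, h2⟩ := hE T n
  have h3 := pInv_le hM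
  rw [h1, h2] at h3
  have h5 : (pInv T n : ℝ) ≤ 2 - 2 * n + 2 * (n : ℝ) ^ 2 - 0 := by exact_mod_cast h3
  unfold cost
  linarith

/-- a multiplicative equivalence from a bijection of the index sets -/
def reind {α β : Type} (e : α ≃ β) : Multiplicative (α → ℤ) ≃* Multiplicative (β → ℤ) where
  toFun v := Multiplicative.ofAdd (fun b => Multiplicative.toAdd v (e.symm b))
  invFun v := Multiplicative.ofAdd (fun a => Multiplicative.toAdd v (e a))
  left_inv v := by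
    apply Multiplicative.toAdd.injective
    funext a
    simp
  right_inv v := by
    apply Multiplicative.toAdd.injective
    funext b
    simp
  map_mul' v w := by
    apply Multiplicative.toAdd.injective
    funext b
    simp

theorem cost_cover (hE : S_EXI) (hG : S_GLUE) (hT : S_TD) (T : Manifolds) (k q : ℕ) (hk : 2 ≤ k)
    (hq : 1 ≤ q) (hc : q.Coprime (k - 1).factorial) :
    cost T (k * q) ≤ (q : ℝ) ^ 2 * cost T k + k * cost T q := by
  classical
  have : NeZero q := ⟨by omega⟩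
  obtain ⟨B, hB1, hB2, hB3⟩ := hT k q hk hc
  obtain ⟨Mk, hMk, hpk⟩ := pInv_mem hE T k
  obtain ⟨Mq, hMq, hpq⟩ := pInv_mem hE T q
  let M : (ZMod q × ZMod q) ⊕ Fin k → T.Obj := Sum.elim (fun _ => Mk) (fun _ => Mq)
  have hM : ∀ i, Nonempty (T.grp (M i) ≃* Multiplicative (B i → ℤ)) := by
    rintro (ab | i)
    · obtain ⟨e⟩ := hMk
      have h1 : Fintype.card (Fin k) = Fintype.card (B (Sum.inl ab)) := by
        rw [Fintype.card_fin, Fintype.card_coe, hB1]
      exact ⟨e.trans (reind (Fintype.equivOfCardEq h1))⟩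
    · obtain ⟨e⟩ := hMq
      have h1 : Fintype.card (Fin q) = Fintype.card (B (Sum.inr i)) := by
        rw [Fintype.card_fin, Fintype.card_coe, hB2]
      exact ⟨e.trans (reind (Fintype.equivOfCardEq h1))⟩
  obtain ⟨L, ⟨e⟩, h1, h2⟩ := hG T (Fin k × ZMod q) ((ZMod q × ZMod q) ⊕ Fin k) B M hM hB3
  have hcard : Fintype.card (Fin k × ZMod q) = k * q := by
    rw [Fintype.card_prod, Fintype.card_fin, ZMod.card]
  have hL : Nonempty (T.grp L ≃* Multiplicative (Fin (k * q) → ℤ)) := by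
    have h3 : Fintype.card (Fin k × ZMod q) = Fintype.card (Fin (k * q)) := by
      rw [hcard, Fintype.card_fin]
    exact ⟨e.trans (reind (Fintype.equivOfCardEq h3))⟩
  have h3 := pInv_le hL
  rw [Fintype.sum_sum_type] at h1 h2
  simp only [M, Sum.elim_inl, Sum.elim_inr, hB1, hB2, Finset.sum_const, Finset.card_univ,
    Fintype.card_prod, ZMod.card, Fintype.card_fin, nsmul_eq_mul] at h1 h2
  have h1r : (T.chi L : ℝ) - 2 + 2 * ((k : ℝ) * q) =
      (q : ℝ) * q * ((T.chi Mk : ℝ) - 2 + 2 * k) + k * ((T.chi Mq : ℝ) - 2 + 2 * q) := by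
    exact_mod_cast h1
  have h2r : (T.sig L : ℝ) = (q : ℝ) * q * (T.sig Mk : ℝ) + k * (T.sig Mq : ℝ) := by
    exact_mod_cast h2
  have h3r : (pInv T (k * q) : ℝ) ≤ T.chi L - T.sig L := by exact_mod_cast h3
  have hkr : (pInv T k : ℝ) = T.chi Mk - T.sig Mk := by exact_mod_cast hpk
  have hqr : (pInv T q : ℝ) = T.chi Mq - T.sig Mq := by exact_mod_cast hpq
  unfold cost
  push_cast
  rw [hkr, hqr]
  nlinarith [h1r, h2r, h3r]

/-- The limit exists and is an infimum. -/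
theorem mainA (hE : S_EXI) (hK : S_KILL) (hG : S_GLUE) (hT : S_TD) (hL : S_LIM) (T : Manifolds) :
    ∃ c : ℝ, 0 ≤ c ∧
      Tendsto (fun n : ℕ => (pInv T n : ℝ) / (n : ℝ) ^ 2) atTop (𝓝 c) ∧
      IsGLB {x : ℝ | ∃ k : ℕ, 2 ≤ k ∧ x = ((pInv T k : ℝ) - 2 + 2 * k) / (k * (k - 1))} c := by
  obtain ⟨c, h0, h1, h2⟩ := hL (cost T) (cost_nonneg hE T) (cost_mono hE hK T) (cost_quad hE T)
    (fun k q hk hq hc => cost_cover hE hG hT T k q hk hq hc)
  refine ⟨c, h0, ?_, h2⟩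
  have h3 : Tendsto (fun n : ℕ => (2 - 2 * (n : ℝ)) / (n : ℝ) ^ 2) atTop (𝓝 0) := by
    have h4 : Tendsto (fun n : ℕ => 2 * ((n : ℝ)⁻¹ * (n : ℝ)⁻¹) - 2 * (n : ℝ)⁻¹) atTop
        (𝓝 (2 * (0 * 0) - 2 * 0)) :=
      ((tendsto_inv_atTop_nhds_zero_nat.mul tendsto_inv_atTop_nhds_zero_nat).const_mul 2).sub
        (tendsto_inv_atTop_nhds_zero_nat.const_mul 2)
    have h5 : (2 * (0 * 0) - 2 * 0 : ℝ) = 0 := by norm_num
    rw [h5] at h4
    refine h4.congr' ?_
    filter_upwards [eventually_gt_atTop 0] with n hn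
    have : (n : ℝ) ≠ 0 := by positivity
    field_simp
  have h6 := h1.add h3
  rw [add_zero] at h6
  refine h6.congr fun n => ?_
  unfold cost
  rw [← add_div]
  congr 1
  ring

end Pool.Agent.P8H3.KI
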