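import Pool.Agent.P8H3.KI.Stm
import Pool.Agent.P8H3.KI.DefsB

/-!
# Project KI: the lower bound, and the 4-forms
-/

set_option autoImplicit false

namespace Pool.Agent.P8H3.KI

open Finset

/-- The lower bound for the codimension of a positive definite subspace. -/
theorem lower (hS : S_SKEW) {V H : Type} [AddCommGroup V] [Module ℝ V] [FiniteDimensional ℝ V]
    [AddCommGroup H] [Module ℝ H] [FiniteDimensional ℝ H] (C : CupForm V H) (s : ℕ)
    (hs : 2 ^ s < Module.finrank ℝ V)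
    (hc : ∀ x y, LinearIndependent ℝ ![x, y] → C.cup x y ≠ 0) (P : Submodule ℝ H)
    (hP : ∀ a ∈ P, a ≠ 0 → 0 < C.form a a) :
    Module.finrank ℝ P + (2 ^ (s + 1) - 1) ≤ Module.finrank ℝ H := by
  by_contra hcon
  push Not at hcon
  obtain ⟨A, hA⟩ : ∃ A : Submodule ℝ (Module.Dual ℝ H), A = P.dualAnnihilator := ⟨_, rfl⟩
  have hAr : Module.finrank ℝ P + Module.finrank ℝ A = Module.finrank ℝ H := by
    rw [hA]
    exact Subspace.finrank_add_finrank_dualAnnihilator_eq P
  have hpow : 1 ≤ 2 ^ s := Nat.one_le_two_pow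
  have hpow2 : 2 ^ (s + 1) = 2 * 2 ^ s := by rw [pow_succ]; ring
  have hm : Module.finrank ℝ A + 2 ≤ 2 ^ (s + 1) := by omega
  have hfree : Module.Free ℝ A := Module.Free.of_divisionRing ℝ A
  have hfin : Module.Finite ℝ A := FiniteDimensional.finiteDimensional_submodule A
  let b := Module.finBasis ℝ A
  obtain ⟨x, y, hxy, h0⟩ := hS V s hs (Module.finrank ℝ A)
    (fun i => C.cup.compr₂ ((b i : A) : Module.Dual ℝ H)) hm (by
      intro i x
      rw [LinearMap.compr₂_apply, C.alt, map_zero])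
  have hmem : C.cup x y ∈ P := by
    have h1 : C.cup x y ∈ A.dualCoannihilator := by
      rw [Submodule.mem_dualCoannihilator]
      intro φ hφ
      have h2 : (⟨φ, hφ⟩ : A) = ∑ i, b.repr ⟨φ, hφ⟩ i • b i := (b.sum_repr _).symm
      have h3 : φ = ∑ i, b.repr ⟨φ, hφ⟩ i • ((b i : A) : Module.Dual ℝ H) := by
        have h4 := congrArg (Submodule.subtype A) h2
        rw [map_sum] at h4
        exact h4
      rw [h3, LinearMap.sum_apply]
      refine Finset.sum_eq_zero fun i _ => ?_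
      have := h0 i
      rw [LinearMap.compr₂_apply] at this
      rw [LinearMap.smul_apply, this, smul_zero]
    rwa [hA, Subspace.dualAnnihilator_dualCoannihilator_eq] at h1
  have := hP _ hmem (hc x y hxy)
  rw [C.sq] at this
  exact lt_irrefl _ this

/-- the coordinate of a vector, or zero -/
noncomputable def xt (n : ℕ) (i : ℕ) : (Fin n → ℝ) →ₗ[ℝ] ℝ :=
  if h : i < n then LinearMap.proj ⟨i, h⟩ else 0

/-- the coordinate of an element of `Pairs n → ℝ`, or zero -/
noncomputable def pt (n : ℕ) (i j : ℕ) : (Pairs n → ℝ) →ₗ[ℝ] ℝ :=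
  if h : i < j ∧ j < n then LinearMap.proj ⟨(⟨i, h.1.trans h.2⟩, ⟨j, h.2⟩), h.1⟩ else 0

noncomputable def cupS (n : ℕ) : (Fin n → ℝ) →ₗ[ℝ] (Fin n → ℝ) →ₗ[ℝ] (Pairs n → ℝ) :=
  LinearMap.mk₂ ℝ (fun x y z => x z.1.1 * y z.1.2 - x z.1.2 * y z.1.1)
    (by intro x x' y; funext z; simp only [Pi.add_apply]; ring)
    (by intro c x y; funext z; simp only [Pi.smul_apply, smul_eq_mul]; ring)
    (by intro x y y'; funext z; simp only [Pi.add_apply]; ring)
    (by intro c x y; funext z; simp only [Pi.smul_apply, smul_eq_mul]; ring)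

theorem cupS_apply (n : ℕ) (x y : Fin n → ℝ) (z : Pairs n) :
    cupS n x y z = x z.1.1 * y z.1.2 - x z.1.2 * y z.1.1 := rfl

theorem pt_cup (n : ℕ) {i j : ℕ} (h : i < j ∧ j < n) (x y : Fin n → ℝ) :
    pt n i j (cupS n x y) = xt n i x * xt n j y - xt n j x * xt n i y := by
  have h1 : i < n := h.1.trans h.2
  simp only [pt, xt, dif_pos h, dif_pos h1, dif_pos h.2, LinearMap.proj_apply, cupS_apply]

/-- the polarised Pluecker polynomial -/
noncomputable def pol (n : ℕ) (i k l j : ℕ) : (Pairs n → ℝ) →ₗ[ℝ] (Pairs n → ℝ) →ₗ[ℝ] ℝ :=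
  LinearMap.mk₂ ℝ (fun a b => pt n i k a * pt n l j b + pt n i k b * pt n l j a
      - pt n i l a * pt n k j b - pt n i l b * pt n k j a
      + pt n i j a * pt n k l b + pt n i j b * pt n k l a)
    (by intro x x' y; simp only [map_add]; ring)
    (by intro c x y; simp only [map_smul, smul_eq_mul]; ring)
    (by intro x y y'; simp only [map_add]; ring)
    (by intro c x y; simp only [map_smul, smul_eq_mul]; ring)

theorem pol_apply (n i k l j : ℕ) (a b : Pairs n → ℝ) : pol n i k l j a b =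
    pt n i k a * pt n l j b + pt n i k b * pt n l j a
      - pt n i l a * pt n k j b - pt n i l b * pt n k j a
      + pt n i j a * pt n k l b + pt n i j b * pt n k l a := rfl

/-- the weight of a quadruple -/
noncomputable def wt (n i k l j : ℕ) : ℝ :=
  if i < k ∧ k < l ∧ l < j ∧ i + j = k + l then ((4 * n + 1 : ℕ) : ℝ) ^ ((i + j) ^ 2) else 0

noncomputable def formS (n : ℕ) : (Pairs n → ℝ) →ₗ[ℝ] (Pairs n → ℝ) →ₗ[ℝ] ℝ :=
  ∑ i ∈ range n, ∑ k ∈ range n, ∑ l ∈ range n, ∑ j ∈ range n, (-wt n i k l j) • pol n i k l j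

theorem formS_apply (n : ℕ) (a b : Pairs n → ℝ) : formS n a b =
    ∑ i ∈ range n, ∑ k ∈ range n, ∑ l ∈ range n, ∑ j ∈ range n,
      (-wt n i k l j) * pol n i k l j a b := by
  simp only [formS, LinearMap.sum_apply, LinearMap.smul_apply, smul_eq_mul]

/-- four coordinates -/
noncomputable def four (n i k l j : ℕ) : (Fin n → ℝ) →ₗ[ℝ] (Fin 4 → ℝ) :=
  LinearMap.pi ![xt n i, xt n k, xt n l, xt n j]

/-- the 4-form -/
noncomputable def omegaS (n : ℕ) : (Fin n → ℝ) [⋀^Fin 4]→ₗ[ℝ] ℝ :=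
  ∑ i ∈ range n, ∑ k ∈ range n, ∑ l ∈ range n, ∑ j ∈ range n,
    (-wt n i k l j) • (Matrix.detRowAlternating (R := ℝ) (n := Fin 4)).compLinearMap (four n i k l j)

theorem omegaS_apply (n : ℕ) (v : Fin 4 → Fin n → ℝ) : omegaS n v =
    ∑ i ∈ range n, ∑ k ∈ range n, ∑ l ∈ range n, ∑ j ∈ range n,
      (-wt n i k l j) * Matrix.det (Matrix.of fun a => four n i k l j (v a)) := by
  have hsum : ∀ (S : Finset ℕ) (g : ℕ → (Fin n → ℝ) [⋀^Fin 4]→ₗ[ℝ] ℝ),
      (∑ i ∈ S, g i) v = ∑ i ∈ S, g i v := by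
    intro S g
    induction S using Finset.cons_induction with
    | empty => simp
    | cons a S ha ih => rw [sum_cons, sum_cons, AlternatingMap.add_apply, ih]
  rw [omegaS, hsum]
  refine sum_congr rfl fun i _ => ?_
  rw [hsum]
  refine sum_congr rfl fun k _ => ?_
  rw [hsum]
  refine sum_congr rfl fun l _ => ?_
  rw [hsum]
  refine sum_congr rfl fun j _ => ?_
  rw [AlternatingMap.smul_apply, smul_eq_mul]
  rfl

theorem det_four (n : ℕ) {i k l j : ℕ} (h : i < k ∧ k < l ∧ l < j) (hj : j < n)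
    (x y z w : Fin n → ℝ) :
    Matrix.det (Matrix.of fun a => four n i k l j (![x, y, z, w] a)) =
      pol n i k l j (cupS n x y) (cupS n z w) := by
  rw [pol_apply, pt_cup n ⟨by omega, by omega⟩, pt_cup n ⟨by omega, by omega⟩,
    pt_cup n ⟨by omega, by omega⟩, pt_cup n ⟨by omega, by omega⟩,
    pt_cup n ⟨by omega, by omega⟩, pt_cup n ⟨by omega, by omega⟩,
    pt_cup n ⟨by omega, by omega⟩, pt_cup n ⟨by omega, by omega⟩,
    pt_cup n ⟨by omega, by omega⟩, pt_cup n ⟨by omega, by omega⟩,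
    pt_cup n ⟨by omega, by omega⟩, pt_cup n ⟨by omega, by omega⟩]
  simp only [Matrix.det_succ_row_zero (n := 3), Fin.sum_univ_four, Matrix.det_fin_three]
  simp [four, Matrix.submatrix, Fin.succAbove, Matrix.of_apply, LinearMap.pi_apply]
  ring

theorem form_omega (n : ℕ) (x y z w : Fin n → ℝ) :
    formS n (cupS n x y) (cupS n z w) = omegaS n ![x, y, z, w] := by
  rw [formS_apply, omegaS_apply]
  refine sum_congr rfl fun i _ => sum_congr rfl fun k _ => sum_congr rfl fun l _ =>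
    sum_congr rfl fun j hj => ?_
  by_cases h : i < k ∧ k < l ∧ l < j ∧ i + j = k + l
  · rw [det_four n ⟨h.1, h.2.1, h.2.2.1⟩ (mem_range.1 hj)]
  · rw [wt, if_neg h, neg_zero, zero_mul, zero_mul]

end Pool.Agent.P8H3.KI
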