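import Pool.Agent.P8H3.KI.MainB

/-!
# Project KI: positivity, and the nondegenerate completion
-/

set_option autoImplicit false

namespace Pool.Agent.P8H3.KI

open Finset

/-- the sums over the pairs with a given sum -/
noncomputable def smap (n : ℕ) : (Pairs n → ℝ) →ₗ[ℝ] (Fin (2 * n - 3) → ℝ) :=
  LinearMap.pi fun s => ∑ i ∈ range n, ∑ j ∈ range n,
    if i < j ∧ i + j = (s : ℕ) + 1 then pt n i j else 0

theorem smap_apply (n : ℕ) (a : Pairs n → ℝ) (s : Fin (2 * n - 3)) : smap n a s =
    ∑ i ∈ range n, ∑ j ∈ range n, if i < j ∧ i + j = (s : ℕ) + 1 then pt n i j a else 0 := by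
  simp only [smap, LinearMap.pi_apply, LinearMap.sum_apply]
  refine sum_congr rfl fun i _ => sum_congr rfl fun j _ => ?_
  split_ifs <;> simp

theorem pt_val (n : ℕ) (a : Pairs n → ℝ) (z : Pairs n) :
    pt n z.1.1 z.1.2 a = a z := by
  have h : (z.1.1 : ℕ) < z.1.2 ∧ (z.1.2 : ℕ) < n := ⟨z.2, z.1.2.2⟩
  rw [pt, dif_pos h, LinearMap.proj_apply]

theorem formS_pos (hP : S_POS) (n : ℕ) (a : Pairs n → ℝ) (ha : smap n a = 0) (h0 : a ≠ 0) :
    0 < formS n a a := by
  have h1 : ∀ s : ℕ, ∑ i ∈ range n, ∑ j ∈ range n,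
      (if i < j ∧ i + j = s then pt n i j a else 0) = 0 := by
    intro s
    by_cases hs : 1 ≤ s ∧ s ≤ 2 * n - 3
    · have h2 := congrFun ha ⟨s - 1, by omega⟩
      rw [smap_apply] at h2
      simp only [Pi.zero_apply] at h2
      refine Eq.trans ?_ h2
      refine sum_congr rfl fun i _ => sum_congr rfl fun j _ => ?_
      have : s - 1 + 1 = s := by omega
      rw [this]
    · refine sum_eq_zero fun i hi => sum_eq_zero fun j hj => ?_
      rw [if_neg]
      rintro ⟨h2, h3⟩
      rw [mem_range] at hi hj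
      omega
  obtain ⟨z, hz⟩ : ∃ z, a z ≠ 0 := by
    by_contra hcon
    push Not at hcon
    exact h0 (funext hcon)
  have h2 := hP n (fun i j => pt n i j a) h1 ⟨z.1.1, z.1.2, z.2, z.1.2.2, by rw [pt_val]; exact hz⟩
  rw [formS_apply]
  have h3 : ∑ i ∈ range n, ∑ k ∈ range n, ∑ l ∈ range n, ∑ j ∈ range n,
      -wt n i k l j * pol n i k l j a a = 2 * - ∑ i ∈ range n, ∑ k ∈ range n, ∑ l ∈ range n,
        ∑ j ∈ range n, (if i < k ∧ k < l ∧ l < j ∧ i + j = k + l then
      ((4 * n + 1 : ℕ) : ℝ) ^ ((i + j) ^ 2) * plu (fun i j => pt n i j a) i k l j else 0) := by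
    simp only [← sum_neg_distrib, mul_sum]
    refine sum_congr rfl fun i _ => sum_congr rfl fun k _ => sum_congr rfl fun l _ =>
      sum_congr rfl fun j _ => ?_
    rw [pol_apply, wt]
    unfold plu
    split_ifs
    · ring
    · ring
  rw [h3]
  linarith

theorem smap_surj (n : ℕ) : Function.Surjective (smap n) := by
  classical
  -- a pair for every sum
  have hpair : ∀ s : Fin (2 * n - 3), ∃ z : Pairs n, (z.1.1 : ℕ) + z.1.2 = (s : ℕ) + 1 := by
    intro s
    have hs := s.2
    by_cases h : (s : ℕ) + 1 < n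
    · exact ⟨⟨(⟨0, by omega⟩, ⟨(s : ℕ) + 1, h⟩), by rw [Fin.lt_def]; simp⟩, by simp⟩
    · refine ⟨⟨(⟨(s : ℕ) + 1 - (n - 1), by omega⟩, ⟨n - 1, by omega⟩), ?_⟩, ?_⟩
      · rw [Fin.lt_def]
        simp only
        omega
      · simp only
        omega
  choose z hz using hpair
  intro b
  refine ⟨∑ s, Pi.single (z s) (b s), ?_⟩
  rw [map_sum]
  have h1 : ∀ s, smap n (Pi.single (z s) (b s)) = Pi.single s (b s) := by
    intro s
    funext t
    rw [smap_apply]
    have h2 : ∀ i j : ℕ, pt n i j (Pi.single (z s) (b s)) =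
        if i = (z s).1.1 ∧ j = (z s).1.2 then b s else 0 := by
      intro i j
      unfold pt
      split_ifs with h3 h4 h4
      · rw [LinearMap.proj_apply]
        have : (⟨(⟨i, h3.1.trans h3.2⟩, ⟨j, h3.2⟩), h3.1⟩ : Pairs n) = z s := by
          apply Subtype.ext
          apply Prod.ext
          · exact Fin.ext h4.1
          · exact Fin.ext h4.2
        rw [this, Pi.single_eq_same]
      · rw [LinearMap.proj_apply, Pi.single_eq_of_ne]
        intro h5
        apply h4
        rw [← h5]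
        exact ⟨rfl, rfl⟩
      · exfalso
        apply h3
        rw [h4.1, h4.2]
        exact ⟨(z s).2, (z s).1.2.2⟩
      · rfl
    simp only [h2]
    have hz1 : ((z s).1.1 : ℕ) ∈ range n := mem_range.2 (z s).1.1.2
    have hz2 : ((z s).1.2 : ℕ) ∈ range n := mem_range.2 (z s).1.2.2
    have hlt : ((z s).1.1 : ℕ) < (z s).1.2 := (z s).2
    rw [sum_eq_single_of_mem _ hz1, sum_eq_single_of_mem _ hz2]
    · simp only [and_self, if_true]
      rw [hz s]
      by_cases hts : t = s
      · subst hts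
        simp [hlt]
      · rw [Pi.single_eq_of_ne hts, if_neg]
        rintro ⟨-, h6⟩
        apply hts
        apply Fin.ext
        omega
    · intro j _ hj
      simp [hj]
    · intro i _ hi
      refine sum_eq_zero fun j _ => ?_
      simp [hi]
  simp only [h1]
  exact Finset.univ_sum_single b

theorem formS_symm (n : ℕ) (a b : Pairs n → ℝ) : formS n a b = formS n b a := by
  rw [formS_apply, formS_apply]
  refine sum_congr rfl fun i _ => sum_congr rfl fun k _ => sum_congr rfl fun l _ =>
      sum_congr rfl fun j _ => ?_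
  rw [pol_apply, pol_apply]
  ring

theorem omega_int (n : ℕ) (v : Fin 4 → Fin n) :
    ∃ m : ℤ, omegaS n (fun a => Pi.single (v a) 1) = m := by
  have h : omegaS n (fun a => Pi.single (v a) 1) ∈ (Int.castRingHom ℝ).range := by
    rw [omegaS_apply]
    refine sum_mem fun i _ => sum_mem fun k _ => sum_mem fun l _ => sum_mem fun j _ => ?_
    refine mul_mem (neg_mem ?_) ?_
    · unfold wt
      split_ifs
      · exact pow_mem (natCast_mem _ _) _
      · exact zero_mem _
    · have hent : ∀ a b, ∃ m : ℤ, (Matrix.of fun a => four n i k l j (Pi.single (v a) 1)) a b =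
          (m : ℝ) := by
        intro a b
        have hx : ∀ u : ℕ, ∃ m : ℤ, xt n u (Pi.single (v a) 1) = (m : ℝ) := by
          intro u
          unfold xt
          split_ifs with hu
          · rw [LinearMap.proj_apply, Pi.single_apply]
            split_ifs
            · exact ⟨1, by simp⟩
            · exact ⟨0, by simp⟩
          · exact ⟨0, by simp⟩
        rw [Matrix.of_apply]
        fin_cases b
        · exact hx i
        · exact hx k
        · exact hx l
        · exact hx j
      choose M hM using hent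
      refine ⟨Matrix.det (Matrix.of M), ?_⟩
      rw [RingHom.map_det]
      congr 1
      ext a b
      rw [hM]
      simp
  obtain ⟨m, hm⟩ := h
  exact ⟨m, by rw [← hm]; simp⟩

/-- Finsler's lemma -/
theorem finsler {E F : Type} [NormedAddCommGroup E] [NormedSpace ℝ E] [FiniteDimensional ℝ E]
    [NormedAddCommGroup F] [NormedSpace ℝ F] (g : E →ₗ[ℝ] E →ₗ[ℝ] ℝ) (r : E →ₗ[ℝ] F)
    (q : F → ℝ) (hq0 : ∀ v, v ≠ 0 → 0 < q v) (hqc : Continuous q) (hq00 : q 0 = 0)
    (hqh : ∀ (t : ℝ) v, q (t • v) = t ^ 2 * q v)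
    (hpos : ∀ a, r a = 0 → a ≠ 0 → 0 < g a a) :
    ∃ K : ℝ, ∀ a, a ≠ 0 → 0 < g a a + K * q (r a) := by
  have hg : Continuous fun a : E => g a a := by
    have h1 : Continuous fun a : E => LinearMap.toContinuousLinearMap (g a) := by
      exact (LinearMap.toContinuousLinearMap.toLinearMap.comp g).continuous_of_finiteDimensional
    exact h1.clm_apply continuous_id
  have hr : Continuous fun a : E => q (r a) := hqc.comp r.continuous_of_finiteDimensional
  by_contra hcon
  push Not at hcon
  have hm : ∀ m : ℕ, ∃ a : E, a ∈ Metric.sphere (0 : E) 1 ∧ g a a + m * q (r a) ≤ 0 := by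
    intro m
    obtain ⟨a, ha, h1⟩ := hcon m
    refine ⟨(‖a‖)⁻¹ • a, ?_, ?_⟩
    · rw [mem_sphere_zero_iff_norm, norm_smul, norm_inv, norm_norm,
        inv_mul_cancel₀ (norm_ne_zero_iff.2 ha)]
    · simp only [map_smul, LinearMap.smul_apply, smul_eq_mul]
      rw [hqh]
      have : (‖a‖)⁻¹ * ((‖a‖)⁻¹ * g a a) + m * ((‖a‖)⁻¹ ^ 2 * q (r a)) =
          (‖a‖)⁻¹ ^ 2 * (g a a + m * q (r a)) := by ring
      rw [this]
      exact mul_nonpos_of_nonneg_of_nonpos (by positivity) h1
  choose a ha1 ha2 using hm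
  obtain ⟨b, hb, φ, hφ, hlim⟩ := (isCompact_sphere (0 : E) 1).tendsto_subseq ha1
  have hgl := (hg.tendsto b).comp hlim
  have hrl := (hr.tendsto b).comp hlim
  have hqnn : ∀ v, 0 ≤ q v := by
    intro v
    by_cases hv : v = 0
    · rw [hv, hq00]
    · exact (hq0 v hv).le
  -- the limit is in the kernel
  have hker : q (r b) = 0 := by
    by_contra hne
    have hpos' : 0 < q (r b) := lt_of_le_of_ne (hqnn _) (Ne.symm hne)
    have h1 : Filter.Tendsto (fun m : ℕ => ((φ m : ℕ) : ℝ) * q (r (a (φ m)))) Filter.atTop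
        Filter.atTop :=
      Filter.Tendsto.atTop_mul_pos hpos'
        (tendsto_natCast_atTop_atTop.comp hφ.tendsto_atTop) hrl
    have h2 : Filter.Tendsto (fun m : ℕ => g (a (φ m)) (a (φ m)) +
        ((φ m : ℕ) : ℝ) * q (r (a (φ m)))) Filter.atTop Filter.atTop :=
      Filter.Tendsto.add_atTop hgl h1
    obtain ⟨m, hm⟩ := (h2.eventually (Filter.eventually_gt_atTop 0)).exists
    exact absurd (ha2 (φ m)) (not_le.2 hm)
  have hb0 : b ≠ 0 := by
    rintro rfl
    rw [mem_sphere_zero_iff_norm, norm_zero] at hb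
    exact zero_ne_one hb
  have hrb : r b = 0 := by
    by_contra hne
    exact absurd hker (hq0 _ hne).ne'
  have hgb := hpos b hrb hb0
  have hle : g b b ≤ 0 := by
    refine le_of_tendsto hgl (Filter.Eventually.of_forall fun m => ?_)
    have h1 := ha2 (φ m)
    have h2 : 0 ≤ ((φ m : ℕ) : ℝ) * q (r (a (φ m))) := mul_nonneg (Nat.cast_nonneg _) (hqnn _)
    simp only [Function.comp]
    linarith
  linarith

end Pool.Agent.P8H3.KI
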