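import Pool.Agent.P8H3.KI.MainB2

/-!
# Project KI: the nondegenerate completion, and the main statements
-/

set_option autoImplicit false

namespace Pool.Agent.P8H3.KI

open Finset

theorem lowerBoth (hS : S_SKEW) {V H : Type} [AddCommGroup V] [Module ℝ V]
    [FiniteDimensional ℝ V] [AddCommGroup H] [Module ℝ H] [FiniteDimensional ℝ H]
    (C : CupForm V H) (P N : Submodule ℝ H) (hPN : Split C P N) (s : ℕ)
    (hs : 2 ^ s < Module.finrank ℝ V)
    (hc : ∀ x y, LinearIndependent ℝ ![x, y] → C.cup x y ≠ 0) :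
    2 ^ (s + 1) - 1 ≤ Module.finrank ℝ P ∧ 2 ^ (s + 1) - 1 ≤ Module.finrank ℝ N ∧
      2 ^ (s + 2) - 2 * (Module.finrank ℝ V : ℤ) ≤ euler V H - signature P N := by
  have hdim : Module.finrank ℝ P + Module.finrank ℝ N = Module.finrank ℝ H :=
    Submodule.finrank_add_eq_of_isCompl hPN.compl
  have h1 := lower hS C s hs hc P hPN.pos
  let C' : CupForm V H := { C with
    form := -C.form
    symm := fun a b => by rw [LinearMap.neg_apply, LinearMap.neg_apply, LinearMap.neg_apply,
      LinearMap.neg_apply, C.symm]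
    sq := fun x y => by rw [LinearMap.neg_apply, LinearMap.neg_apply, C.sq, neg_zero] }
  have h2 := lower hS C' s hs hc N (fun a ha h0 => by
    have := hPN.neg a ha h0
    show 0 < -(C.form a a)
    linarith)
  have h3 : 1 ≤ 2 ^ (s + 1) := Nat.one_le_two_pow
  refine ⟨by omega, by omega, ?_⟩
  unfold euler signature
  have h4 : 2 ^ (s + 1) ≤ Module.finrank ℝ N + 1 := by omega
  have h5 : (2 : ℤ) ^ (s + 1) ≤ Module.finrank ℝ N + 1 := by exact_mod_cast h4
  have h6 : (2 : ℤ) ^ (s + 2) = 2 * 2 ^ (s + 1) := by ring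
  have h7 : (Module.finrank ℝ P : ℤ) + Module.finrank ℝ N = Module.finrank ℝ H := by
    exact_mod_cast hdim
  rw [h6]
  linarith

/-- the second cohomology of the completed ring -/
abbrev HH (n : ℕ) : Type := (Pairs n → ℝ) × (Fin (2 * n - 3) → ℝ)

noncomputable def formH (n : ℕ) : HH n →ₗ[ℝ] HH n →ₗ[ℝ] ℝ :=
  LinearMap.mk₂ ℝ (fun a b => formS n a.1 b.1 + smap n a.1 ⬝ᵥ b.2 + smap n b.1 ⬝ᵥ a.2)
    (by intro x x' y; simp only [Prod.fst_add, Prod.snd_add, map_add, LinearMap.add_apply,
          add_dotProduct, dotProduct_add]; ring)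
    (by intro c x y; simp only [Prod.smul_fst, Prod.smul_snd, map_smul, LinearMap.smul_apply,
          smul_dotProduct, dotProduct_smul, smul_eq_mul]; ring)
    (by intro x y y'; simp only [Prod.fst_add, Prod.snd_add, map_add, LinearMap.add_apply,
          add_dotProduct, dotProduct_add]; ring)
    (by intro c x y; simp only [Prod.smul_fst, Prod.smul_snd, map_smul, LinearMap.smul_apply,
          smul_dotProduct, dotProduct_smul, smul_eq_mul]; ring)

theorem formH_apply (n : ℕ) (a b : HH n) :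
    formH n a b = formS n a.1 b.1 + smap n a.1 ⬝ᵥ b.2 + smap n b.1 ⬝ᵥ a.2 := rfl

noncomputable def ringH (n : ℕ) : CupForm (Fin n → ℝ) (HH n) where
  cup := (cupS n).compr₂ (LinearMap.inl ℝ _ _)
  form := formH n
  symm a b := by rw [formH_apply, formH_apply, formS_symm]; ring
  alt x := by
    rw [LinearMap.compr₂_apply]
    have : cupS n x x = 0 := by
      funext z
      rw [cupS_apply, Pi.zero_apply]
      ring
    rw [this, map_zero]
  sq x y := by
    rw [LinearMap.compr₂_apply, formH_apply]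
    simp only [LinearMap.inl_apply, dotProduct_zero, add_zero]
    rw [form_omega]
    exact (omegaS n).map_eq_zero_of_eq _ (i := 0) (j := 2) rfl (by decide)

theorem dot_self_pos {m : ℕ} (v : Fin m → ℝ) (hv : v ≠ 0) : 0 < v ⬝ᵥ v := by
  have h1 : 0 ≤ v ⬝ᵥ v := by
    unfold dotProduct
    exact Finset.sum_nonneg fun i _ => mul_self_nonneg _
  refine lt_of_le_of_ne h1 fun h => hv ?_
  exact dotProduct_self_eq_zero.1 h.symm

theorem complete (hP : S_POS) (n : ℕ) : ∃ P N : Submodule ℝ (HH n),
    Split (ringH n) P N ∧ Module.finrank ℝ N = 2 * n - 3 := by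
  obtain ⟨K', hK'⟩ := finsler (formS n) (smap n) (fun v => v ⬝ᵥ v) dot_self_pos
    (by
      simp only [dotProduct]
      fun_prop) (by simp) (by
      intro t v
      simp only [smul_dotProduct, dotProduct_smul, smul_eq_mul]
      ring) (fun a ha h0 => formS_pos hP n a ha h0)
  obtain ⟨K, hK⟩ : ∃ K : ℝ, ∀ a, a ≠ 0 → 0 < formS n a a + 2 * K * (smap n a ⬝ᵥ smap n a) :=
    ⟨K' / 2, fun a ha => by
      have := hK' a ha
      have e : 2 * (K' / 2) = K' := by ring
      rw [e]
      exact this⟩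
  let ι : (Pairs n → ℝ) →ₗ[ℝ] HH n := LinearMap.prod LinearMap.id (K • smap n)
  have hι : ∀ a, ι a = (a, K • smap n a) := fun a => rfl
  have hinj : Function.Injective ι := fun a b h => congrArg Prod.fst h
  let P : Submodule ℝ (HH n) := LinearMap.range ι
  let θ : HH n →ₗ[ℝ] ((Pairs n → ℝ) →ₗ[ℝ] ℝ) := ((formH n).comp ι).flip
  have hθ : ∀ p a, θ p a = formH n (ι a) p := fun p a => rfl
  let N : Submodule ℝ (HH n) := LinearMap.ker θ
  have hpos : ∀ a, a ≠ 0 → 0 < formH n (ι a) (ι a) := by
    intro a ha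
    rw [formH_apply, hι]
    simp only [dotProduct_smul, smul_eq_mul]
    have := hK a ha
    linarith
  have hdisj : Disjoint P N := by
    rw [Submodule.disjoint_def]
    rintro x ⟨a, rfl⟩ hx
    by_contra hne
    have ha : a ≠ 0 := by
      rintro rfl
      exact hne (map_zero ι)
    have h1 := hpos a ha
    have h2 : θ (ι a) a = 0 := by
      rw [LinearMap.mem_ker.1 hx, LinearMap.zero_apply]
    rw [hθ] at h2
    linarith
  have hPr : Module.finrank ℝ P = Module.finrank ℝ (Pairs n → ℝ) :=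
    LinearMap.finrank_range_of_inj hinj
  have hHr : Module.finrank ℝ (HH n) = Module.finrank ℝ (Pairs n → ℝ) + (2 * n - 3) := by
    rw [Module.finrank_prod, Module.finrank_pi (R := ℝ) (ι := Fin (2 * n - 3)), Fintype.card_fin]
  have hNr1 : Module.finrank ℝ (HH n) ≤ Module.finrank ℝ N + Module.finrank ℝ (Pairs n → ℝ) := by
    have h1 : Module.finrank ℝ (LinearMap.range θ) + Module.finrank ℝ N =
        Module.finrank ℝ (HH n) := LinearMap.finrank_range_add_finrank_ker θ
    have h2 : Module.finrank ℝ (LinearMap.range θ) ≤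
        Module.finrank ℝ ((Pairs n → ℝ) →ₗ[ℝ] ℝ) := Submodule.finrank_le _
    have h3 : Module.finrank ℝ ((Pairs n → ℝ) →ₗ[ℝ] ℝ) = Module.finrank ℝ (Pairs n → ℝ) :=
      Subspace.dual_finrank_eq
    omega
  have hNr2 := Submodule.finrank_add_finrank_le_of_disjoint hdisj
  have hNr : Module.finrank ℝ N = 2 * n - 3 := by omega
  refine ⟨P, N, ⟨?_, ?_, ?_⟩, hNr⟩
  · rintro x ⟨a, rfl⟩ hx
    refine hpos a ?_
    rintro rfl
    exact hx (map_zero ι)
  · rintro ⟨b, w⟩ hx hne
    have hx' : ∀ a, formH n (ι a) (b, w) = 0 := by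
      intro a
      rw [← hθ, LinearMap.mem_ker.1 hx, LinearMap.zero_apply]
    show formH n (b, w) (b, w) < 0
    have hform : ∀ a, formS n a b + smap n a ⬝ᵥ w + K * (smap n b ⬝ᵥ smap n a) = 0 := by
      intro a
      have := hx' a
      rw [formH_apply, hι] at this
      simp only [dotProduct_smul, smul_eq_mul] at this
      exact this
    rw [formH_apply]
    by_cases hb : b = 0
    · subst hb
      exfalso
      obtain ⟨a, ha⟩ := smap_surj n w
      have h1 := hform a
      rw [ha] at h1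
      simp only [map_zero, zero_dotProduct, mul_zero, add_zero, zero_add] at h1
      have hw : w = 0 := dotProduct_self_eq_zero.1 h1
      exact hne (by rw [hw]; rfl)
    · have h1 := hform b
      have h2 := hK b hb
      simp only
      linarith
  · exact ⟨hdisj, codisjoint_iff.2 (Submodule.eq_top_of_disjoint P N (by omega) hdisj)⟩

/-- main statement: upper bound -/
theorem upper (hP : S_POS) (n : ℕ) (hn : 2 ≤ n) : ∃ (H : Type) (_ : AddCommGroup H)
    (_ : Module ℝ H) (_ : FiniteDimensional ℝ H) (C : CupForm (Fin n → ℝ) H)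
    (P N : Submodule ℝ H) (j : (Pairs n → ℝ) →ₗ[ℝ] H) (ω : (Fin n → ℝ) [⋀^Fin 4]→ₗ[ℝ] ℝ),
    Split C P N ∧ Function.Injective j ∧
      (∀ x y, C.cup x y = j fun z => x z.1.1 * y z.1.2 - x z.1.2 * y z.1.1) ∧
      (∀ x y z w, C.form (C.cup x y) (C.cup z w) = ω ![x, y, z, w]) ∧
      (∀ v : Fin 4 → Fin n, ∃ m : ℤ, ω (fun a => Pi.single (v a) 1) = m) ∧
      euler (Fin n → ℝ) H - signature P N = 2 * n - 4 := by
  obtain ⟨P, N, h1, h2⟩ := complete hP n
  refine ⟨HH n, inferInstance, inferInstance, inferInstance, ringH n, P, N,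
    LinearMap.inl ℝ _ _, omegaS n, h1, LinearMap.inl_injective, fun x y => rfl, ?_,
    omega_int n, ?_⟩
  · intro x y z w
    show formH n (LinearMap.inl ℝ _ _ (cupS n x y)) (LinearMap.inl ℝ _ _ (cupS n z w)) = _
    rw [formH_apply]
    simp only [LinearMap.inl_apply, dotProduct_zero, add_zero]
    exact form_omega n x y z w
  · have hdim : Module.finrank ℝ P + Module.finrank ℝ N = Module.finrank ℝ (HH n) :=
      Submodule.finrank_add_eq_of_isCompl h1.compl
    unfold euler signature
    rw [← hdim, h2, Module.finrank_pi (R := ℝ) (ι := Fin n), Fintype.card_fin]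
    have : ((2 * n - 3 : ℕ) : ℤ) = 2 * n - 3 := by omega
    push_cast [this]
    ring

end Pool.Agent.P8H3.KI
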