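import Pool.Agent.P8H3.KI.Stm

/-!
# Project KI: one more package
-/

set_option autoImplicit false

namespace Pool.Agent.P8H3.KI

/-- Package EXI (from SUMI and SURG, with `Pool.Agent.P8H3.KI.fab` in `P8H3/KI/Fab.lean`): manifolds
with fundamental group `Z ^ n` exist: the connected sum of `n` manifolds `circle`, and surgery on the
`n ^ 2` commutators `⁅x i, x j⁆` of the generators. -/
def S_EXI : Prop := ∀ (T : Manifolds) (n : ℕ), ∃ M : T.Obj,
  Nonempty (T.grp M ≃* Multiplicative (Fin n → ℤ)) ∧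
    T.chi M = 2 - 2 * (n : ℤ) + 2 * (n : ℤ) ^ 2 ∧ T.sig M = 0

end Pool.Agent.P8H3.KI
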